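import Mathlib
import Pool.Agent.Helper505.SinfStab
import Pool.Agent.Helper505.SinfFin

set_option autoImplicit false

open Filter Topology Equiv Equiv.Perm

namespace Pool.Agent.Results.MP_8d0ff6_al.FourTopologies

open Pool.Agent.Helper505.Sinf

/-- The finitary permutations of the integers: those moving only finitely many integers. -/
def finitary : Subgroup (Perm ℤ) where
  carrier := {g | {n : ℤ | g n ≠ n}.Finite}
  one_mem' := by simp
  mul_mem' := fun hp hq => mul_support_finite hp hq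
  inv_mem' := fun hp => inv_support_finite hp

/-- The finitary even permutations of the integers: products of an even number of
transpositions. -/
def finitaryEven : Subgroup (Perm ℤ) where
  carrier := {g | ∃ l : List (Perm ℤ), (∀ t ∈ l, t.IsSwap) ∧ Even l.length ∧ l.prod = g}
  one_mem' := ⟨[], by simp, by simp, rfl⟩
  mul_mem' := by
    rintro a b ⟨l, h1, h2, rfl⟩ ⟨l', h1', h2', rfl⟩
    refine ⟨l ++ l', ?_, ?_, List.prod_append⟩
    · intro t ht
      rcases List.mem_append.mp ht with ht | ht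
      · exact h1 t ht
      · exact h1' t ht
    · rw [List.length_append]
      exact h2.add h2'
  inv_mem' := by
    rintro a ⟨l, h1, h2, rfl⟩
    refine ⟨(l.map (fun t => t⁻¹)).reverse, ?_, ?_, by rw [← List.prod_inv_reverse]⟩
    · intro t ht
      rw [List.mem_reverse, List.mem_map] at ht
      obtain ⟨s, hs, rfl⟩ := ht
      obtain ⟨a, b, hab, rfl⟩ := h1 s hs
      exact ⟨a, b, hab, swap_inv a b⟩
    · simpa using h2

/-- The standard topology of `Perm ℤ` given by a subgroup `N`: a set `U` is open iff for every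
`g ∈ U` there is a finite set `F` of integers such that `g * h ∈ U` for all `h ∈ N` fixing `F`
pointwise. -/
@[instance_reducible]
def stdTop (N : Subgroup (Perm ℤ)) : TopologicalSpace (Perm ℤ) where
  IsOpen U := ∀ g ∈ U, ∃ F : Finset ℤ, ∀ h ∈ N, (∀ n ∈ F, h n = n) → g * h ∈ U
  isOpen_univ := fun _ _ => ⟨∅, fun _ _ _ => Set.mem_univ _⟩
  isOpen_inter := by
    intro U V hU hV g hg
    obtain ⟨F, hF⟩ := hU g hg.1
    obtain ⟨F', hF'⟩ := hV g hg.2
    refine ⟨F ∪ F', fun h hh hfix => ⟨hF h hh ?_, hF' h hh ?_⟩⟩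
    · exact fun n hn => hfix n (Finset.mem_union_left _ hn)
    · exact fun n hn => hfix n (Finset.mem_union_right _ hn)
  isOpen_sUnion := by
    intro S hS g hg
    obtain ⟨U, hU, hgU⟩ := hg
    obtain ⟨F, hF⟩ := hS U hU g hgU
    exact ⟨F, fun h hh hfix => ⟨U, hU, hF h hh hfix⟩⟩

theorem isOpen_stdTop (N : Subgroup (Perm ℤ)) (U : Set (Perm ℤ)) :
    IsOpen[stdTop N] U ↔ ∀ g ∈ U, ∃ F : Finset ℤ, ∀ h ∈ N, (∀ n ∈ F, h n = n) → g * h ∈ U :=
  Iff.rfl

theorem mem_nhds_stdTop (N : Subgroup (Perm ℤ)) (g : Perm ℤ) (U : Set (Perm ℤ)) :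
    U ∈ @nhds _ (stdTop N) g ↔ ∃ F : Finset ℤ, ∀ h ∈ N, (∀ n ∈ F, h n = n) → g * h ∈ U := by
  let := stdTop N
  rw [mem_nhds_iff]
  constructor
  · rintro ⟨V, hVU, hV, hg⟩
    obtain ⟨F, hF⟩ := (isOpen_stdTop N V).mp hV g hg
    exact ⟨F, fun h hh hfix => hVU (hF h hh hfix)⟩
  · rintro ⟨F, hF⟩
    refine ⟨{x | ∃ h ∈ N, (∀ n ∈ F, h n = n) ∧ x = g * h}, ?_, ?_, ?_⟩
    · rintro _ ⟨h, h1, h2, rfl⟩
      exact hF h h1 h2
    · rw [isOpen_stdTop]
      rintro _ ⟨h, h1, h2, rfl⟩
      refine ⟨F, fun k k1 k2 => ⟨h * k, N.mul_mem h1 k1, ?_, by rw [mul_assoc]⟩⟩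
      intro n hn
      rw [Perm.mul_apply, k2 n hn, h2 n hn]
    · exact ⟨1, N.one_mem, fun _ _ => rfl, (mul_one g).symm⟩

/-- `stdTop N` is a metrizable group topology when `N` is normal. -/
theorem stdTop_metrizable (N : Subgroup (Perm ℤ)) (hN : ∀ n ∈ N, ∀ g : Perm ℤ, g * n * g⁻¹ ∈ N) :
    @IsTopologicalGroup (Perm ℤ) (stdTop N) _ ∧
      @TopologicalSpace.MetrizableSpace (Perm ℤ) (stdTop N) := by
  classical
  let := stdTop N
  have hgrp : IsTopologicalGroup (Perm ℤ) := by
    apply IsTopologicalGroup.of_nhds_one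
    · intro U hU
      obtain ⟨F, hF⟩ := (mem_nhds_stdTop N 1 U).mp hU
      have hA : {h : Perm ℤ | h ∈ N ∧ ∀ n ∈ F, h n = n} ∈ 𝓝 (1 : Perm ℤ) := by
        apply (mem_nhds_stdTop N 1 _).mpr
        refine ⟨F, fun h h1 h2 => ?_⟩
        rw [one_mul]
        exact ⟨h1, h2⟩
      rw [mem_map, Filter.mem_prod_iff]
      refine ⟨_, hA, _, hA, ?_⟩
      rintro ⟨h, k⟩ ⟨⟨h1, h2⟩, ⟨k1, k2⟩⟩
      have := hF (h * k) (N.mul_mem h1 k1) (by
        intro n hn
        rw [Perm.mul_apply, k2 n hn, h2 n hn])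
      rwa [one_mul] at this
    · intro U hU
      obtain ⟨F, hF⟩ := (mem_nhds_stdTop N 1 U).mp hU
      rw [mem_map]
      apply (mem_nhds_stdTop N 1 _).mpr
      refine ⟨F, fun h h1 h2 => ?_⟩
      rw [one_mul]
      have := hF h⁻¹ (N.inv_mem h1) (by
        intro n hn
        rw [Perm.inv_eq_iff_eq]
        exact (h2 n hn).symm)
      rwa [one_mul] at this
    · intro g
      ext U
      rw [mem_map]
      constructor
      · intro hU
        obtain ⟨F, hF⟩ := (mem_nhds_stdTop N g U).mp hU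
        apply (mem_nhds_stdTop N 1 _).mpr
        refine ⟨F, fun h h1 h2 => ?_⟩
        rw [one_mul]
        exact hF h h1 h2
      · intro hU
        obtain ⟨F, hF⟩ := (mem_nhds_stdTop N 1 _).mp hU
        apply (mem_nhds_stdTop N g _).mpr
        refine ⟨F, fun h h1 h2 => ?_⟩
        have := hF h h1 h2
        rw [one_mul] at this
        exact this
    · intro g U hU
      obtain ⟨F, hF⟩ := (mem_nhds_stdTop N 1 U).mp hU
      rw [mem_map]
      apply (mem_nhds_stdTop N 1 _).mpr
      refine ⟨F.image (fun n => g⁻¹ n), fun h h1 h2 => ?_⟩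
      rw [one_mul]
      have := hF (g * h * g⁻¹) (hN h h1 g) (by
        intro n hn
        rw [Perm.mul_apply, Perm.mul_apply, h2 _ (Finset.mem_image_of_mem _ hn), app_inv])
      rwa [one_mul] at this
  refine ⟨hgrp, ?_⟩
  have hT2 : T2Space (Perm ℤ) := by
    apply IsTopologicalGroup.t2Space_of_one_sep
    intro x hx
    obtain ⟨n, hn⟩ : ∃ n, x n ≠ n := by
      by_contra h
      simp only [not_exists, not_not] at h
      exact hx (Equiv.ext h)
    refine ⟨{g | g n = n}, ?_, hn⟩
    apply (mem_nhds_stdTop N 1 _).mpr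
    refine ⟨{n}, fun h h1 h2 => ?_⟩
    rw [one_mul]
    exact h2 n (Finset.mem_singleton_self n)
  have hcg : (𝓝 (1 : Perm ℤ)).IsCountablyGenerated := by
    have e : 𝓝 (1 : Perm ℤ) = ⨅ F : Finset ℤ, 𝓟 {h : Perm ℤ | h ∈ N ∧ ∀ n ∈ F, h n = n} := by
      apply le_antisymm
      · rw [le_iInf_iff]
        intro F
        rw [le_principal_iff]
        apply (mem_nhds_stdTop N 1 _).mpr
        refine ⟨F, fun h h1 h2 => ?_⟩
        rw [one_mul]
        exact ⟨h1, h2⟩
      · intro U hU
        obtain ⟨F, hF⟩ := (mem_nhds_stdTop N 1 _).mp hU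
        apply mem_of_superset (mem_iInf_of_mem F (mem_principal_self _))
        rintro h ⟨h1, h2⟩
        have := hF h h1 h2
        rwa [one_mul] at this
    rw [e]
    infer_instance
  have hu : @TopologicalSpace.PseudoMetrizableSpace (Perm ℤ) _ := by
    refine ⟨⟨IsTopologicalGroup.rightUniformSpace (Perm ℤ), rfl, ?_⟩⟩
    exact Filter.comap.isCountablyGenerated _ _
  exact { hu with toT0Space := inferInstance }

section Forward

variable [τ : TopologicalSpace (Perm ℤ)] [IsTopologicalGroup (Perm ℤ)] [T2Space (Perm ℤ)]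

theorem eq_stdTop (N : Subgroup (Perm ℤ)) (hN : (N : Set (Perm ℤ)) ∈ 𝓝 (1 : Perm ℤ))
    (h : ∀ U ∈ 𝓝 (1 : Perm ℤ), ∃ F : Set ℤ, F.Finite ∧ ∀ p ∈ N, (∀ x ∈ F, p x = x) → p ∈ U) :
    τ = stdTop N := by
  ext U
  rw [isOpen_stdTop, isOpen_iff_mem_nhds]
  refine forall_congr' fun g => forall_congr' fun _ => ?_
  have e : U ∈ 𝓝 g ↔ (g * ·) ⁻¹' U ∈ 𝓝 (1 : Perm ℤ) := by
    rw [← mem_map, map_mul_left_nhds_one]
  rw [e]
  constructor
  · intro hU
    obtain ⟨F, hF, hFU⟩ := h _ hU
    refine ⟨hF.toFinset, fun p hp hfix => hFU p hp ?_⟩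
    intro x hx
    exact hfix x (by simpa using hx)
  · rintro ⟨F, hF⟩
    apply mem_of_superset (inter_mem hN (stab_finite (F : Set ℤ) F.finite_toSet))
    rintro p ⟨hp1, hp2⟩
    exact hF p hp1 hp2

end Forward

theorem alt_eq : alt ℤ = finitaryEven := by
  apply le_antisymm
  · unfold alt
    rw [Subgroup.closure_le]
    rintro _ ⟨a, b, c, d, hab, hcd, rfl⟩
    refine ⟨[swap a b, swap c d], ?_, ?_, by simp⟩
    · intro t ht
      simp only [List.mem_cons, List.not_mem_nil, or_false] at ht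
      rcases ht with rfl | rfl
      · exact ⟨a, b, hab, rfl⟩
      · exact ⟨c, d, hcd, rfl⟩
    · exact ⟨1, rfl⟩
  · rintro g ⟨l, h1, ⟨m, hm⟩, rfl⟩
    revert l
    induction m with
    | zero =>
      intro l _ hl
      have : l = [] := List.length_eq_zero_iff.mp (by simpa using hl)
      rw [this]
      exact (alt ℤ).one_mem
    | succ m ih =>
      intro l h1 hl
      match l, h1, hl with
      | [], _, hl => simp at hl
      | [_], _, hl => simp at hl; omega
      | s :: t :: l, h1, hl =>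
        rw [List.prod_cons, List.prod_cons, ← mul_assoc]
        apply (alt ℤ).mul_mem
        · obtain ⟨a, b, hab, rfl⟩ := h1 s (by simp)
          obtain ⟨c, d, hcd, rfl⟩ := h1 t (by simp)
          exact Subgroup.subset_closure ⟨a, b, c, d, hab, hcd, rfl⟩
        · apply ih l
          · exact fun t ht => h1 t (by simp [ht])
          · simp only [List.length_cons] at hl
            omega

theorem alt_le_finitary : alt ℤ ≤ finitary := by
  unfold alt
  rw [Subgroup.closure_le]
  rintro _ ⟨a, b, c, d, hab, hcd, rfl⟩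
  exact mul_support_finite (swap_support_finite _ _) (swap_support_finite _ _)

theorem forward [τ : TopologicalSpace (Perm ℤ)] [IsTopologicalGroup (Perm ℤ)]
    [T2Space (Perm ℤ)] [FirstCountableTopology (Perm ℤ)] :
    τ = stdTop ⊥ ∨ τ = stdTop finitaryEven ∨ τ = stdTop finitary ∨ τ = stdTop ⊤ := by
  classical
  by_cases hinf : ∀ V ∈ 𝓝 (1 : Perm ℤ), ∃ g ∈ V, {x | g x ≠ x}.Infinite
  · right; right; right
    apply eq_stdTop ⊤
    · exact univ_mem
    · intro U hU
      obtain ⟨F, hF, h⟩ := stab_good hinf U hU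
      exact ⟨F, hF, fun p _ hp => h p hp⟩
  push Not at hinf
  obtain ⟨U₀, hU₀, hfin⟩ := hinf
  have hfinN : (finitary : Set (Perm ℤ)) ∈ 𝓝 (1 : Perm ℤ) :=
    mem_of_superset hU₀ (fun g hg => hfin g hg)
  by_cases hdisc : {(1 : Perm ℤ)} ∈ 𝓝 (1 : Perm ℤ)
  · left
    apply eq_stdTop ⊥
    · rw [Subgroup.coe_bot]
      exact hdisc
    · intro U hU
      refine ⟨∅, Set.finite_empty, fun p hp _ => ?_⟩
      rw [Subgroup.mem_bot] at hp
      rw [hp]
      exact mem_of_mem_nhds hU
  right
  have hnd : ∀ V ∈ 𝓝 (1 : Perm ℤ), ∃ g ∈ V, g ≠ 1 ∧ {x | g x ≠ x}.Finite := by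
    intro V hV
    by_contra hcon
    apply hdisc
    apply mem_of_superset (inter_mem hV hfinN)
    rintro g ⟨hg1, hg2⟩
    by_contra hne
    exact hcon ⟨g, hg1, hne, hg2⟩
  by_cases halt : ((alt ℤ : Subgroup (Perm ℤ)) : Set (Perm ℤ)) ∈ 𝓝 (1 : Perm ℤ)
  · left
    apply eq_stdTop finitaryEven
    · rw [← alt_eq]
      exact halt
    · intro U hU
      rw [← alt_eq]
      exact alt_good hnd U hU
  right; left
  apply eq_stdTop finitary
  · exact hfinN
  · intro U hU
    obtain ⟨V, hV, hVU⟩ := exists_nhds_one_split hU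
    obtain ⟨F, hF, hFV⟩ := alt_good hnd V hV
    -- an odd finitary element of `V` fixing `F`
    have hN := inter_mem (inter_mem hV hfinN) (stab_finite F hF)
    obtain ⟨x, ⟨⟨hxV, hxfin⟩, hxF⟩, hxalt⟩ : ∃ x ∈ (V ∩ (finitary : Set (Perm ℤ))) ∩
        {g : Perm ℤ | ∀ x ∈ F, g x = x}, x ∉ alt ℤ := by
      by_contra hcon
      push Not at hcon
      exact halt (mem_of_superset hN hcon)
    refine ⟨F, hF, fun p hp hpF => ?_⟩
    have h1V : (1 : Perm ℤ) ∈ V := mem_of_mem_nhds hV
    by_cases hpalt : p ∈ alt ℤ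
    · have := hVU 1 h1V p (hFV p hpalt hpF)
      rwa [one_mul] at this
    · have h2 : x⁻¹ * p ∈ alt ℤ := alt_index hxfin hp hxalt hpalt
      have h3 : x⁻¹ * p ∈ V := by
        apply hFV _ h2
        intro y hy
        rw [Perm.mul_apply, hpF y hy, Perm.inv_eq_iff_eq]
        exact (hxF y hy).symm
      have := hVU x hxV _ h3
      rwa [mul_inv_cancel_left] at this

theorem conj_isSwap (g t : Perm ℤ) (ht : t.IsSwap) : (g * t * g⁻¹).IsSwap := by
  obtain ⟨a, b, hab, rfl⟩ := ht
  refine ⟨g a, g b, fun h => hab (g.injective h), ?_⟩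
  rw [Equiv.mul_swap_eq_swap_mul]
  group

/-- **Theorem.** A topology on the group `Perm ℤ` of all permutations of the integers is a
metrizable group topology if and only if it is one of the four standard topologies, given by the
trivial subgroup, the finitary even permutations, the finitary permutations and the whole group. -/
theorem result (τ : TopologicalSpace (Perm ℤ)) :
    (@IsTopologicalGroup (Perm ℤ) τ _ ∧ @TopologicalSpace.MetrizableSpace (Perm ℤ) τ) ↔
      (τ = stdTop ⊥ ∨ τ = stdTop finitaryEven ∨ τ = stdTop finitary ∨ τ = stdTop ⊤) := by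
  constructor
  · rintro ⟨h1, h2⟩
    exact forward
  · rintro (rfl | rfl | rfl | rfl)
    · apply stdTop_metrizable
      intro n hn g
      rw [Subgroup.mem_bot] at hn
      subst hn
      simp
    · apply stdTop_metrizable
      rintro _ ⟨l, h1, h2, rfl⟩ g
      refine ⟨l.map (fun t => g * t * g⁻¹), ?_, ?_, (conj_list_prod g l).symm⟩
      · intro t ht
        rw [List.mem_map] at ht
        obtain ⟨s, hs, rfl⟩ := ht
        exact conj_isSwap g s (h1 s hs)
      · simpa using h2
    · apply stdTop_metrizable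
      intro n hn g
      have hn' : {x | n x ≠ x}.Finite := hn
      have : {x | (g * n * g⁻¹) x ≠ x} ⊆ g '' {x | n x ≠ x} := by
        intro x hx
        refine ⟨g⁻¹ x, ?_, app_inv g x⟩
        intro h
        apply hx
        rw [Perm.mul_apply, Perm.mul_apply, h, app_inv]
      exact (hn'.image g).subset this
    · apply stdTop_metrizable
      intro n _ g
      exact Subgroup.mem_top _

end Pool.Agent.Results.MP_8d0ff6_al.FourTopologies
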